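import Pool.Agent.H542Z.BabaiMain

set_option autoImplicit false

namespace Pool.Agent.Results.MP_b06295_co.AFull

open Pool.Agent.H542Z.Babai

/-- Let `C` be a class of finite simple graphs that is closed under subcontractions (this includes
isomorphic copies) and does not contain every finite graph. Then there is `N` such that every
finite group `G` that is isomorphic to the full automorphism group of a member of `C`, and whose
order is divisible by no prime less than `N`, belongs to the class `𝒲`. -/
theorem result (C : (V : Type) → [Finite V] → SimpleGraph V → Prop)
    (hC : ∀ (V W : Type) [Finite V] [Finite W] (X : SimpleGraph V) (Y : SimpleGraph W),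
      IsSubcontraction Y X → C V X → C W Y)
    (hne : ∃ (W : Type) (_ : Finite W) (Y : SimpleGraph W), ¬ C W Y) :
    ∃ N : ℕ, ∀ (G : Type) [Group G] [Finite G],
      (∃ (V : Type) (_ : Finite V) (X : SimpleGraph V), C V X ∧ Nonempty (G ≃* (X ≃g X))) →
      (∀ p : ℕ, p.Prime → p < N → ¬ p ∣ Nat.card G) → InW G :=
  main C hC hne

end Pool.Agent.Results.MP_b06295_co.AFull
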